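import Pool.Agent.Q243.PR.Three
import Pool.Agent.Q243.PR.Eul
import Pool.Agent.Y703.XL.InfC

/-!
# The Poonen-Rains constant `2 C_{3,0}` for the cubic twists over `ℚ(√-3)`

`K` is the field of third roots of unity, `E_D : y² + D y = x³`, and `D` runs through the squarefree
`D = 1` modulo `3` of `𝓞 K` whose norm is not `1` modulo `9`; there are at least `c X` such `D` of
norm at most `X`. The 3-Selmer group `Sel₃(E_D)` over `K` is finite, and the proportion of the `D`
for which it is as small as possible, `dim Sel₃(E_D) = dim E_D(K)[3]`, tends to `2 C_{3,0}`, where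
`C_{3,0} = ∏_{j ≥ 0} (1 + 3^{-j})^{-1}` is the constant of Poonen and Rains for `p = 3`. (In their model
the dimension is even with probability `1/2`, so that `2 C_{3,0}` is the probability of the
dimension zero under the condition that the dimension is even.) Moreover no mass escapes to
infinity: for every `ε > 0` there is `R` with `#Sel₃(E_D) ≤ 3 ^ R` for a proportion at least `1 - ε` of
the `D`.

The law of the kernel of `√-3` on the `3^∞`-Selmer group is the starting theorem
`CubicTwistsThreeInfinity` (MP_a3f657_nt, library theorem `Pool.Agent.Y703.XL.Inf.finalInf`); here the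
3-Selmer group itself is treated: `#Sel₃ = #E_D(K)[3]` if and only if the `3^∞`-Selmer group is zero, the
bound for the order, and Euler's identity for the constant.
-/

set_option autoImplicit false

open scoped Classical

namespace Pool.Agent.Results.MP_8cb858_nt.CubicTwistsThreeSelmer

open NumberField WeierstrassCurve Filter Topology Finset
open Pool.Agent.TH841.SH.D (Pt act Gal Coch)
open Pool.Agent.TH841.NF.D (IsShaCoc shaCoc)

/-- the constant `C_{p,d} = ∏_{j ≥ 0} (1 + p^{-j})^{-1} ∏_{i = 1}^d p / (p^i - 1)` of Poonen and Rains -/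
noncomputable def PRConst (p d : ℕ) : ℝ :=
  (∏' j : ℕ, (1 + (1 / (p : ℝ)) ^ j)⁻¹) * ∏ i ∈ Icc 1 d, (p : ℝ) / ((p : ℝ) ^ i - 1)

/-- the curve `E_D : y² + D y = x³` -/
def curve {K : Type} [Field K] (D : K) : WeierstrassCurve K := ⟨0, 0, D, 0, 0⟩

variable {K : Type} [Field K] [NumberField K]

/-- The group of the continuous cocycles of the absolute Galois group of `K` with values in
`E_D[3]` that are coboundaries of points of `E_D` at all the places of `K`. -/
def Cocycles (D : K) : AddSubgroup (Coch (curve D)) where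
  carrier := {f | IsShaCoc (curve D) f ∧ ∀ σ, 3 • f σ = 0}
  zero_mem' := (Pool.Agent.Q243.PR3.sel3Coc D).zero_mem'
  add_mem' := (Pool.Agent.Q243.PR3.sel3Coc D).add_mem'
  neg_mem' := (Pool.Agent.Q243.PR3.sel3Coc D).neg_mem'

/-- The group of the coboundaries of the points of `E_D[3]`. -/
def Coboundaries (D : K) : AddSubgroup (Coch (curve D)) where
  carrier := {f | ∃ P : Pt (curve D) (AlgebraicClosure K), 3 • P = 0 ∧
    ∀ σ : Gal K, f σ = act (curve D) σ.toAlgHom P - P}
  zero_mem' := (Pool.Agent.Q243.PR3.cob3 D).zero_mem'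
  add_mem' := (Pool.Agent.Q243.PR3.cob3 D).add_mem'
  neg_mem' := (Pool.Agent.Q243.PR3.cob3 D).neg_mem'

/-- The 3-Selmer group of `E_D` over `K`: the kernel of `H¹(K, E_D[3]) → ∏ H¹(K_v, E_D)`. -/
def Sel (D : K) : Type := Cocycles D ⧸ (Coboundaries D).addSubgroupOf (Cocycles D)

/-- the 3-Selmer group is as small as possible: it is finite, of the order of `E_D(K)[3]` -/
def Minimal (D : K) : Prop :=
  Finite (Sel D) ∧ Nat.card (Sel D) = Nat.card {P : (curve D).toAffine.Point // 3 • P = 0}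

/-- `D` is squarefree and `1` modulo `3`, and its norm is not `1` modulo `9`. -/
def InClass (D : 𝓞 K) : Prop :=
  (3 : 𝓞 K) ∣ D - 1 ∧ Squarefree D ∧ ¬ (9 : ℤ) ∣ Algebra.norm ℤ D - 1

/-- The `D` of the class of norm at most `X`. -/
def upTo (K : Type) [Field K] [NumberField K] (X : ℕ) : Set (𝓞 K) :=
  {D : 𝓞 K | Algebra.norm ℤ D ≤ X ∧ InClass D}

/-- the proportion of the `D` of the class of norm at most `X` which are in `S` -/
noncomputable def proportion {K : Type} [Field K] [NumberField K] (S : Set (𝓞 K)) (X : ℕ) : ℝ :=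
  ((upTo K X ∩ S).ncard : ℝ) / (upTo K X).ncard

lemma const_eq : Pool.Agent.XL6.prob 0 = 2 * PRConst 3 0 := by
  have h := Pool.Agent.Q243.PR3.euler (q := 1 / 3) (by norm_num) (by norm_num)
  unfold Pool.Agent.XL6.prob PRConst
  rw [h]
  norm_num

/-- **Theorem.** Let `K` be the field of third roots of unity. There is `c > 0` with at least `c X`
elements `D` of the class of norm at most `X` for all large `X`; for every `D` of the class the
3-Selmer group of `E_D` over `K` is finite; the proportion of the `D` for which it is as small as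
possible tends to `2 C_{3,0} = 0.639...`; and for every `ε > 0` there is `R` such that for all large
`X` the proportion of the `D` with `#Sel₃(E_D) ≤ 3 ^ R` is at least `1 - ε`. -/
theorem result (K : Type) [Field K] [NumberField K] [IsCyclotomicExtension {3} ℚ K] :
    (∃ c : ℝ, 0 < c ∧ ∃ X₀ : ℕ, ∀ X : ℕ, X₀ ≤ X → c * X ≤ ((upTo K X).ncard : ℝ)) ∧
    (∀ D : 𝓞 K, InClass D → Finite (Sel (D : K))) ∧
    Tendsto (proportion {D : 𝓞 K | Minimal (D : K)}) atTop (𝓝 (2 * PRConst 3 0)) ∧
    (0.639 < 2 * PRConst 3 0 ∧ 2 * PRConst 3 0 < 0.6391) ∧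
    ∀ ε : ℝ, 0 < ε → ∃ R : ℕ, ∀ᶠ X : ℕ in atTop,
      1 - ε ≤ proportion {D : 𝓞 K | Nat.card (Sel (D : K)) ≤ 3 ^ R} X := by
  obtain ⟨ω, hω⟩ : ∃ ω : K, ω ^ 2 + ω + 1 = 0 := by
    have h := IsCyclotomicExtension.zeta_spec 3 ℚ K
    refine ⟨IsCyclotomicExtension.zeta 3 ℚ K, ?_⟩
    have h1 := h.isRoot_cyclotomic (by norm_num)
    rw [Polynomial.cyclotomic_three] at h1
    simpa using h1
  obtain ⟨⟨c, hc, X₀, h1⟩, h2, h3, h4, ⟨h5, h6, h7⟩, -⟩ := Pool.Agent.Y703.XL.Inf.finalInf K ω hω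
  have hcls : ∀ D : 𝓞 K, InClass D → Finite (Sel (D : K)) ∧
      (∀ r : ℕ, (Pool.Agent.Y703.XL.Inf.killed ω (D : K)).ncard = 3 ^ r →
        Nat.card (Sel (D : K)) ≤ 3 ^ (2 * r + 1)) ∧
      (Minimal (D : K) ↔ ∀ x : Pool.Agent.Y703.XL.Inf.SelInf (D : K), x = 0) := by
    intro D hD
    have hD0 := Pool.Agent.Y703.XL.Inf.ne_zero hD
    have hcu := Pool.Agent.Y703.XL.Inf.not_cube hD
    obtain ⟨⟨r, hr, -⟩, -⟩ := h2 D hD
    refine ⟨(Pool.Agent.Q243.PR3.sel3_le_of hD0 hω hcu hr).1, fun r hr => ?_,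
      Pool.Agent.Q243.PR3.min_iff hD0 hω hcu⟩
    have g1 := (Pool.Agent.Q243.PR3.sel3_le_of hD0 hω hcu hr).2
    have g2 := Pool.Agent.Q243.PR3.tor_le hD0 hω hcu
    have e : 3 ^ (2 * r + 1) = 9 ^ r * 3 := by
      rw [pow_succ, pow_mul]
      norm_num
    rw [e]
    exact g1.trans (Nat.mul_le_mul_left _ g2)
  refine ⟨⟨c, hc, X₀, h1⟩, fun D hD => (hcls D hD).1, ?_, ?_, fun ε hε => ?_⟩
  · rw [← const_eq]
    refine h4.congr fun X => ?_
    have e : upTo K X ∩ {D : 𝓞 K | Minimal (D : K)} = {D : 𝓞 K | Algebra.norm ℤ D ≤ X ∧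
        Pool.Agent.Y696.CTK.ClsK D ∧ ∀ x : Pool.Agent.Y703.XL.Inf.SelInf (D : K), x = 0} := by
      ext D
      constructor
      · rintro ⟨⟨a1, a2⟩, a3⟩
        exact ⟨a1, a2, (hcls D a2).2.2.1 a3⟩
      · rintro ⟨a1, a2, a3⟩
        exact ⟨⟨a1, a2⟩, (hcls D a2).2.2.2 a3⟩
    unfold proportion
    rw [e]
    rfl
  · rw [← const_eq]
    exact ⟨h5, h6⟩
  · -- a partial sum of the probabilities
    obtain ⟨r, hr⟩ : ∃ r : ℕ, 1 - ε < ∑ i ∈ range r, Pool.Agent.XL6.prob i := by
      have := h7.tendsto_sum_nat.eventually (lt_mem_nhds (by linarith : 1 - ε < 1))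
      obtain ⟨r, hr⟩ := this.exists
      exact ⟨r, hr⟩
    refine ⟨2 * r + 1, ?_⟩
    have hsum := tendsto_finsetSum (range r) fun i _ => h3 i
    have hev := hsum.eventually (lt_mem_nhds hr)
    filter_upwards [hev, eventually_ge_atTop (X₀ + 1)] with X hX hX0
    refine hX.le.trans ?_
    have hpos : (0 : ℝ) < ((upTo K X).ncard : ℝ) := by
      refine lt_of_lt_of_le ?_ (h1 X (by omega))
      have : (0 : ℝ) < X := by
        have : 0 < X := by omega
        exact_mod_cast this
      positivity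
    have hfin : (upTo K X).Finite :=
      Set.finite_of_ncard_ne_zero (by
        intro h0
        rw [h0] at hpos
        norm_num at hpos)
    change ∑ i ∈ range r, ({D : 𝓞 K | Algebra.norm ℤ D ≤ X ∧ Pool.Agent.Y696.CTK.ClsK D ∧
      (Pool.Agent.Y703.XL.Inf.killed ω (D : K)).ncard = 3 ^ i}.ncard : ℝ) /
        ((upTo K X).ncard : ℝ) ≤ _
    unfold proportion
    rw [← Finset.sum_div, div_le_div_iff_of_pos_right hpos, ← Nat.cast_sum, Nat.cast_le]
    have hT : (upTo K X ∩ {D : 𝓞 K | Nat.card (Sel (D : K)) ≤ 3 ^ (2 * r + 1)}).Finite :=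
      hfin.inter_of_left _
    rw [Set.ncard_eq_toFinset_card _ hT]
    have hSf : ∀ i, ({D : 𝓞 K | Algebra.norm ℤ D ≤ X ∧ Pool.Agent.Y696.CTK.ClsK D ∧
        (Pool.Agent.Y703.XL.Inf.killed ω (D : K)).ncard = 3 ^ i}).Finite :=
      fun i => hfin.subset fun D hD => ⟨hD.1, hD.2.1⟩
    have e : ∀ i ∈ range r, ({D : 𝓞 K | Algebra.norm ℤ D ≤ X ∧ Pool.Agent.Y696.CTK.ClsK D ∧
        (Pool.Agent.Y703.XL.Inf.killed ω (D : K)).ncard = 3 ^ i}).ncard = (hSf i).toFinset.card :=
      fun i _ => Set.ncard_eq_toFinset_card _ (hSf i)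
    rw [Finset.sum_congr rfl e, ← Finset.card_biUnion]
    · refine Finset.card_le_card fun D hD => ?_
      obtain ⟨i, hi, hD2⟩ := Finset.mem_biUnion.1 hD
      rw [Set.Finite.mem_toFinset] at hD2 ⊢
      obtain ⟨a1, a2, a3⟩ := hD2
      refine ⟨⟨a1, a2⟩, ((hcls D a2).2.1 i a3).trans (Nat.pow_le_pow_right (by norm_num) ?_)⟩
      have := Finset.mem_range.1 hi
      omega
    · intro i _ j _ hij
      refine Finset.disjoint_left.2 fun D hD hD' => ?_
      rw [Set.Finite.mem_toFinset] at hD hD'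
      apply hij
      exact Nat.pow_right_injective (by norm_num : 2 ≤ 3) (hD.2.2.symm.trans hD'.2.2)

end Pool.Agent.Results.MP_8cb858_nt.CubicTwistsThreeSelmer
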