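import Pool.Agent.Q243.PR.Four
import Pool.Agent.Results.MP_e23604_nt.NormalOrderPairs

/-!
# The 2-Selmer groups of almost all curves with full 2-torsion and of their 2-isogenous curves

Let `E : y² = x (x - A) (x - B)`, `A = D m`, `B = D n` with coprime `m, n`, and let `E'_0, E'_1, E'_2`
be the quotients of `E` by its three subgroups of order two. For almost all pairs `(m, n)` of every
short square the 2-Selmer group of `E` has bounded dimension while the dimension of the 2-Selmer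
group of each of the three curves `E'_i` is `(3 / 2 + o (1)) log log X`. In particular every
given dimension `d` has density zero for each of the curves `E'_i`: in these families the dimension
of the 2-Selmer group has no limit distribution on the integers, in contrast to the
Poonen-Rains distribution for all the curves.

The theorem on the Tate-Shafarevich groups is `NormalOrderPairs` (MP_e23604_nt); the new part is the
exact sequence `0 → E(ℚ) / 2 E(ℚ) → Sel₂(E) → Ш(E)[2] → 0` and the Mordell-Weil theorem for the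
isogenous curves, which need not have full rational 2-torsion.
-/

set_option autoImplicit false

namespace Pool.Agent.Results.MP_8cb858_nt.IsogenousCurves

open WeierstrassCurve Finset Pool.Agent.TH841.SH.D Pool.Agent.Q243.PR

/-- the curve `y² = x (x - A) (x - B)` -/
def E (A B : ℤ) : WeierstrassCurve ℚ := ⟨0, -((A : ℚ) + B), 0, (A : ℚ) * B, 0⟩

/-- the quotient of `y² = x (x - a) (x - b)` by its subgroup generated by `(0, 0)`: the curve
`y² = x³ + 2 (a + b) x² + (a - b)² x` -/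
def Q (a b : ℤ) : WeierstrassCurve ℚ := ⟨0, 2 * ((a : ℚ) + b), 0, ((a : ℚ) - b) ^ 2, 0⟩

/-- the quotients of `E A B` by the subgroups generated by `(0, 0)`, `(A, 0)`, `(B, 0)` -/
def E' (i : Fin 3) (A B : ℤ) : WeierstrassCurve ℚ := ![Q A B, Q (-A) (B - A), Q (-B) (A - B)] i

/-- The 2-Selmer group `ker (H¹(ℚ, W[2]) → ∏ H¹(ℚ_v, W))`: continuous cocycles of the absolute Galois
group of `ℚ` with values in `W[2]`, which are coboundaries of points of `W` over all the completions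
of `ℚ`, modulo the coboundaries of the points of `W[2]`. -/
abbrev Sel (W : WeierstrassCurve ℚ) : Type := Sel2 W

/-- The pair `(A, B)` is normal: `E A B` is an elliptic curve, its 2-Selmer group is finite, of order
at most `2 ^ R`, and for the three 2-isogenous curves the 2-Selmer group is finite and its
dimension over the field of two elements differs from `(3 / 2) log log X` by at most
`δ log log X`. -/
def Normal (R : ℕ) (δ : ℝ) (X : ℕ) (A B : ℤ) : Prop :=
  A ≠ 0 ∧ B ≠ 0 ∧ A ≠ B ∧ Finite (Sel (E A B)) ∧ Nat.card (Sel (E A B)) ≤ 2 ^ R ∧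
    ∀ i : Fin 3, Finite (Sel (E' i A B)) ∧
      |Real.logb 2 (Nat.card (Sel (E' i A B))) - 3 / 2 * Real.log (Real.log X)| ≤
        δ * Real.log (Real.log X)

lemma sel_quots {A B : ℤ} (hA : A ≠ 0) (hB : B ≠ 0) (hAB : A ≠ B) (i : Fin 3)
    (hS : Finite (ShaTor (E' i A B) 2)) : Finite (Sel2 (E' i A B)) ∧ ∃ t : ℕ, 1 ≤ t ∧ t ≤ 4 ∧
      Nat.card (Sel2 (E' i A B)) = 2 ^ rk (E' i A B) * t * Nat.card (ShaTor (E' i A B) 2) := by
  fin_cases i
  · exact sel_quot hA hB hAB hS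
  · exact sel_quot (neg_ne_zero.2 hA) (sub_ne_zero.2 hAB.symm)
      (fun h => hB (by omega)) hS
  · exact sel_quot (neg_ne_zero.2 hB) (sub_ne_zero.2 hAB)
      (fun h => hA (by omega)) hS

lemma normal_of {R : ℕ} {δ : ℝ} {X : ℕ} {A B : ℤ}
    (hl : (R : ℝ) + 2 ≤ δ / 2 * Real.log (Real.log X))
    (h : Pool.Agent.Results.MP_e23604_nt.NormalOrderPairs.Normal R (δ / 2) X A B) :
    Normal (2 * R + 2) δ X A B := by
  obtain ⟨hA, hB, hAB, h1, h2, h3, h4⟩ := h
  have f2 : Finite (ShaTor (E A B) 2) := by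
    have := h2 1
    rwa [pow_one] at this
  obtain ⟨g1, t, -, g3, g4⟩ := sel_full hA hB hAB f2
  refine ⟨hA, hB, hAB, g1, ?_, fun i => ?_⟩
  · have h5 := h3 1 le_rfl
    rw [pow_one, mul_one] at h5
    have h6 : Nat.card (Sel (E A B)) =
      2 ^ rk (E A B) * t * Nat.card (ShaTor (E A B) 2) := g4
    rw [h6]
    calc 2 ^ rk (E A B) * t * Nat.card (ShaTor (E A B) 2) ≤ 2 ^ R * 2 ^ 2 * 2 ^ R :=
        Nat.mul_le_mul (Nat.mul_le_mul (Nat.pow_le_pow_right (by norm_num) h1) g3) h5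
      _ = 2 ^ (2 * R + 2) := by ring
  · obtain ⟨k1, k2, k3, -⟩ := h4 i
    have f2 : Finite (ShaTor (E' i A B) 2) := by
      have := k2 1
      rwa [pow_one] at this
    obtain ⟨g1, t, g2, g3, g4⟩ := sel_quots hA hB hAB i f2
    have : Nonempty (ShaTor (E' i A B) 2) := ⟨⟨0, smul_zero _⟩⟩
    exact ⟨g1, log_of g4 g2 g3 Nat.card_pos k1 k3 hl⟩

open Classical in
/-- **Theorem.** Let `D ≠ 0` be an integer, `δ, ε > 0` real and `L` natural. (1) There are `R` and
`X₀` such that for all `X ≥ X₀` and all integers `N₁, N₂` of absolute value at most `X ^ L` the number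
of the pairs of coprime integers `m ∈ (N₁, N₁ + X]`, `n ∈ (N₂, N₂ + X]` for which `(D m, D n)` is not
normal is at most `ε X²`. (2) For every `d` there is `X₀` such that for all these `X, N₁, N₂` the
number of the pairs of coprime integers for which one of the curves `E'_i` has a 2-Selmer group
which is not finite or has at most `2 ^ d` elements is at most `ε X²`. -/
theorem result (D : ℤ) (hD : D ≠ 0) (δ ε : ℝ) (hδ : 0 < δ) (hε : 0 < ε) (L : ℕ) :
    (∃ R X₀ : ℕ, ∀ (N₁ N₂ : ℤ) (X : ℕ), X₀ ≤ X → |N₁| ≤ (X : ℤ) ^ L → |N₂| ≤ (X : ℤ) ^ L →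
      (((Ioc N₁ (N₁ + X) ×ˢ Ioc N₂ (N₂ + X)).filter (fun t : ℤ × ℤ =>
        IsCoprime t.1 t.2 ∧ ¬ Normal R δ X (D * t.1) (D * t.2))).card : ℝ) ≤ ε * (X : ℝ) ^ 2) ∧
    ∀ d : ℕ, ∃ X₀ : ℕ, ∀ (N₁ N₂ : ℤ) (X : ℕ), X₀ ≤ X → |N₁| ≤ (X : ℤ) ^ L →
      |N₂| ≤ (X : ℤ) ^ L →
      (((Ioc N₁ (N₁ + X) ×ˢ Ioc N₂ (N₂ + X)).filter (fun t : ℤ × ℤ =>
        IsCoprime t.1 t.2 ∧ ∃ i : Fin 3, ¬ (Finite (Sel (E' i (D * t.1) (D * t.2))) ∧
          2 ^ d < Nat.card (Sel (E' i (D * t.1) (D * t.2)))))).card : ℝ) ≤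
            ε * (X : ℝ) ^ 2 := by
  have key : ∀ δ : ℝ, 0 < δ → ∃ R X₀ : ℕ, ∀ (N₁ N₂ : ℤ) (X : ℕ), X₀ ≤ X → |N₁| ≤ (X : ℤ) ^ L →
      |N₂| ≤ (X : ℤ) ^ L →
      (((Ioc N₁ (N₁ + X) ×ˢ Ioc N₂ (N₂ + X)).filter (fun t : ℤ × ℤ =>
        IsCoprime t.1 t.2 ∧ ¬ Normal R δ X (D * t.1) (D * t.2))).card : ℝ) ≤
          ε * (X : ℝ) ^ 2 := by
    intro δ hδ
    obtain ⟨R, X₀, h⟩ := Pool.Agent.Results.MP_e23604_nt.NormalOrderPairs.result D hD (δ / 2) ε
      (by positivity) hε L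
    obtain ⟨X1, hX1⟩ := big_ll ((R + 2) / (δ / 2))
    refine ⟨2 * R + 2, X₀ + X1, fun N₁ N₂ X hX h1 h2 => ?_⟩
    refine le_trans ?_ (h N₁ N₂ X (by omega) h1 h2)
    have hl : (R : ℝ) + 2 ≤ δ / 2 * Real.log (Real.log X) := by
      have h3 := hX1 X (by omega)
      rwa [div_le_iff₀ (by positivity), mul_comm] at h3
    rw [Nat.cast_le]
    refine card_le_card fun t ht => ?_
    obtain ⟨ht1, ht2, ht3⟩ := mem_filter.1 ht
    exact mem_filter.2 ⟨ht1, ht2, fun hcon => ht3 (normal_of hl hcon)⟩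
  refine ⟨key δ hδ, fun d => ?_⟩
  obtain ⟨R, X₀, h⟩ := key (1 / 2) (by norm_num)
  obtain ⟨X1, hX1⟩ := big_ll (d + 1)
  refine ⟨X₀ + X1, fun N₁ N₂ X hX h1 h2 => ?_⟩
  refine le_trans ?_ (h N₁ N₂ X (by omega) h1 h2)
  have hl := hX1 X (by omega)
  rw [Nat.cast_le]
  refine card_le_card fun t ht => ?_
  obtain ⟨ht1, ht2, i, hi⟩ := mem_filter.1 ht
  refine mem_filter.2 ⟨ht1, ht2, fun hcon => hi ?_⟩
  obtain ⟨-, -, -, -, -, h5⟩ := hcon
  obtain ⟨h6, h7⟩ := h5 i
  refine ⟨h6, ?_⟩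
  have h8 := (abs_le.1 h7).1
  have h9 : (d : ℝ) + 1 ≤ Real.logb 2 (Nat.card (Sel (E' i (D * t.1) (D * t.2)))) := by linarith
  have h10 : (0 : ℝ) < Nat.card (Sel (E' i (D * t.1) (D * t.2))) := by
    have : 0 < Nat.card (Sel2 (E' i (D * t.1) (D * t.2))) := Nat.card_pos
    exact_mod_cast this
  rw [Real.le_logb_iff_rpow_le (by norm_num) h10] at h9
  have h11 : (2 : ℝ) ^ ((d : ℝ) + 1) = ((2 ^ (d + 1) : ℕ) : ℝ) := by
    push_cast
    rw [← Real.rpow_natCast]
    push_cast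
    rfl
  rw [h11] at h9
  have h12 : 2 ^ (d + 1) ≤ Nat.card (Sel (E' i (D * t.1) (D * t.2))) := by exact_mod_cast h9
  exact lt_of_lt_of_le (Nat.pow_lt_pow_right (by norm_num) (by omega)) h12

end Pool.Agent.Results.MP_8cb858_nt.IsogenousCurves
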