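import Pool.Agent.Q243.PR.Four
import Pool.Agent.Results.MP_e23604_nt.NormalOrderPencils

/-!
# The 2-Selmer groups of almost all members of a pencil and of their 2-isogenous curves

Let `A = D(t) u₀(t)`, `B = D(t) u₁(t)`, where `u₀`, `u₁`, `u₂ = u₀ - u₁` are polynomials with
integer coefficients, `u_k` a constant times a product of `n_k` irreducible polynomials, and
`D = c ∏ g_i`. Let `E : y² = x (x - A) (x - B)` and let `E'` be its quotient by the subgroup
generated by `(0, 0)`. If `2 n_k < n₀ + n₁ + n₂` for all `k` (or under a weaker balance condition),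
then for almost all `t` in short intervals the 2-Selmer group of `E` has bounded dimension while the
dimension of the 2-Selmer group of `E'` is `(κ + o (1)) log log M` with an explicit constant `κ > 0`.
In particular every given dimension `d` has density zero for the curves `E'` of the family.

The theorem on the Tate-Shafarevich groups is `NormalOrderPencils` (MP_e23604_nt).
-/

set_option autoImplicit false

namespace Pool.Agent.Results.MP_8cb858_nt.IsogenousPencils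

open WeierstrassCurve Finset Polynomial Pool.Agent.TH841.SH.D Pool.Agent.Q243.PR

/-- the curve `y² = x (x - A) (x - B)` -/
def E (A B : ℤ) : WeierstrassCurve ℚ := ⟨0, -((A : ℚ) + B), 0, (A : ℚ) * B, 0⟩

/-- the quotient of `y² = x (x - A) (x - B)` by its subgroup generated by `(0, 0)`: the curve
`y² = x³ + 2 (A + B) x² + (A - B)² x` -/
def E' (A B : ℤ) : WeierstrassCurve ℚ := ⟨0, 2 * ((A : ℚ) + B), 0, ((A : ℚ) - B) ^ 2, 0⟩

/-- The 2-Selmer group `ker (H¹(ℚ, W[2]) → ∏ H¹(ℚ_v, W))`: continuous cocycles of the absolute Galois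
group of `ℚ` with values in `W[2]`, which are coboundaries of points of `W` over all the completions
of `ℚ`, modulo the coboundaries of the points of `W[2]`. -/
abbrev Sel (W : WeierstrassCurve ℚ) : Type := Sel2 W

/-- The pair `(A, B)` is normal: `E A B` is an elliptic curve, its 2-Selmer group is finite, of order
at most `2 ^ R`, and for the 2-isogenous curve the 2-Selmer group is finite and its dimension over
the field of two elements differs from `κ log log M` by at most `δ log log M`. -/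
def Normal (R : ℕ) (κ δ : ℝ) (M : ℕ) (A B : ℤ) : Prop :=
  A ≠ 0 ∧ B ≠ 0 ∧ A ≠ B ∧ Finite (Sel (E A B)) ∧ Nat.card (Sel (E A B)) ≤ 2 ^ R ∧
    Finite (Sel (E' A B)) ∧
      |Real.logb 2 (Nat.card (Sel (E' A B))) - κ * Real.log (Real.log M)| ≤
        δ * Real.log (Real.log M)

/-- `u_k = a_k ∏ f_{k,i}` -/
noncomputable def u {n : Fin 3 → ℕ} (a : Fin 3 → ℤ) (f : ∀ k : Fin 3, Fin (n k) → ℤ[X])
    (k : Fin 3) : ℤ[X] := C (a k) * ∏ i, f k i

/-- `D = c ∏ g_i` -/
noncomputable def D {m : ℕ} (c : ℤ) (g : Fin m → ℤ[X]) : ℤ[X] := C c * ∏ i, g i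

/-- `v` is a square modulo `f` in `ℚ[t]` -/
def SqMod (f v : ℤ[X]) : Prop := ∃ q : ℚ[X], f.map (Int.castRingHom ℚ) ∣
  (q ^ 2 - v.map (Int.castRingHom ℚ))

/-- `- D u₁`, `- D u₀`, `D u₀` -/
noncomputable def v {n : Fin 3 → ℕ} {m : ℕ} (a : Fin 3 → ℤ) (f : ∀ k : Fin 3, Fin (n k) → ℤ[X])
    (c : ℤ) (g : Fin m → ℤ[X]) : Fin 3 → ℤ[X] :=
  ![-(D c g * u a f 1), -(D c g * u a f 0), D c g * u a f 0]

open Classical in
/-- the constant `κ = n₀ + n₁ - (n₂ + s) / 2 + r / 2`, where `s` is the number of the factors of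
`u₂` modulo which `D u₀` is a square, and `r` the number of the `g_i` modulo which `u₀ u₁` is not
a square -/
noncomputable def κ {n : Fin 3 → ℕ} {m : ℕ} (a : Fin 3 → ℤ) (f : ∀ k : Fin 3, Fin (n k) → ℤ[X])
    (c : ℤ) (g : Fin m → ℤ[X]) : ℝ :=
  (n 0 : ℝ) + n 1 -
    ((n 2 : ℝ) + (univ.filter (fun i => SqMod (f 2 i) (D c g * u a f 0))).card) / 2 +
    ((univ.filter (fun i => ¬ SqMod (g i) (u a f 0 * u a f 1))).card : ℝ) / 2

open Classical in
/-- the balance condition: `2 n_k + s_k ≤ n₀ + n₁ + n₂` for all `k`, where `s_k` is the number of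
the factors `f_{k,i}` modulo which `v_k` is a square -/
def Balanced {n : Fin 3 → ℕ} {m : ℕ} (a : Fin 3 → ℤ) (f : ∀ k : Fin 3, Fin (n k) → ℤ[X])
    (c : ℤ) (g : Fin m → ℤ[X]) : Prop :=
  ∀ k, 2 * n k + (univ.filter (fun i => SqMod (f k i) (v a f c g k))).card ≤ n 0 + n 1 + n 2

lemma normal_of {R : ℕ} {κ δ : ℝ} {M : ℕ} {A B : ℤ}
    (hl : (R : ℝ) + 2 ≤ δ / 2 * Real.log (Real.log M))
    (h : Pool.Agent.Results.MP_e23604_nt.NormalOrderPencils.Normal R κ (δ / 2) M A B) :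
    Normal (2 * R + 2) κ δ M A B := by
  obtain ⟨hA, hB, hAB, h1, h2, h3, k1, k2, k3, -⟩ := h
  have f2 : Finite (ShaTor (E A B) 2) := by
    have := h2 1
    rwa [pow_one] at this
  obtain ⟨g1, t, -, g3, g4⟩ := sel_full hA hB hAB f2
  refine ⟨hA, hB, hAB, g1, ?_, ?_⟩
  · have h5 := h3 1 le_rfl
    rw [pow_one, mul_one] at h5
    have h6 : Nat.card (Sel (E A B)) =
      2 ^ rk (E A B) * t * Nat.card (ShaTor (E A B) 2) := g4
    rw [h6]
    calc 2 ^ rk (E A B) * t * Nat.card (ShaTor (E A B) 2) ≤ 2 ^ R * 2 ^ 2 * 2 ^ R :=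
        Nat.mul_le_mul (Nat.mul_le_mul (Nat.pow_le_pow_right (by norm_num) h1) g3) h5
      _ = 2 ^ (2 * R + 2) := by ring
  · have f2 : Finite (ShaTor (E' A B) 2) := by
      have := k2 1
      rwa [pow_one] at this
    obtain ⟨g1, t, g2, g3, g4⟩ := sel_quot hA hB hAB f2
    have : Nonempty (ShaTor (E' A B) 2) := ⟨⟨0, smul_zero _⟩⟩
    have hpos : 0 < Nat.card (ShaTor (E' A B) 2) := Nat.card_pos
    exact ⟨g1, log_of g4 g2 g3 hpos k1 k3 hl⟩

/-- `κ > 0` -/
lemma κ_pos {n : Fin 3 → ℕ} {m : ℕ} (a : Fin 3 → ℤ) (f : ∀ k : Fin 3, Fin (n k) → ℤ[X])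
    (c : ℤ) (g : Fin m → ℤ[X]) (hn : (∀ k, 2 * n k < n 0 + n 1 + n 2) ∨ Balanced a f c g)
    (h0 : 0 < n 0 + n 1 + n 2) : 0 < κ a f c g := by
  classical
  have h2 : (univ.filter (fun i => SqMod (f 2 i) (D c g * u a f 0))).card ≤ n 2 := by
    refine (card_filter_le _ _).trans ?_
    rw [card_univ, Fintype.card_fin]
  have h3 : 2 * ((univ.filter (fun i => SqMod (f 2 i) (D c g * u a f 0))).card) + n 2 <
      2 * (n 0 + n 1) + (univ.filter (fun i => SqMod (f 2 i) (D c g * u a f 0))).card := by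
    rcases hn with h | h
    · have := h 2
      have h4 : 0 < n 0 + n 1 := by omega
      omega
    · have h5 := h 2
      have e : v a f c g 2 = D c g * u a f 0 := rfl
      rw [e] at h5
      have := h 0
      have := h 1
      omega
  unfold κ
  have h4 : ((n 2 : ℝ) + (univ.filter (fun i => SqMod (f 2 i) (D c g * u a f 0))).card) <
      2 * ((n 0 : ℝ) + n 1) := by
    have : n 2 + (univ.filter (fun i => SqMod (f 2 i) (D c g * u a f 0))).card <
      2 * (n 0 + n 1) := by omega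
    exact_mod_cast this
  have h5 : (0 : ℝ) ≤ ((univ.filter (fun i => ¬ SqMod (g i) (u a f 0 * u a f 1))).card : ℝ) / 2 := by
    positivity
  linarith

open Classical in
/-- **Theorem.** Let `u_k = a_k ∏_{i < n_k} f_{k,i}`, `k = 0, 1, 2`, with `u₀ - u₁ = u₂`, and
`D = c ∏_{i < m} g_i`, where `a_k`, `c` are nonzero and the `n₀ + n₁ + n₂ + m` polynomials
`f_{k,i}`, `g_i` with integer coefficients are irreducible of positive degree and pairwise
non-associated; assume that `2 n_k < n₀ + n₁ + n₂` for all `k`, or the balance condition (and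
`n₀ + n₁ + n₂ > 0`). Then `κ > 0`, and for all `δ, ε > 0` and `L`: (1) there are `R` and `M₀` such that
for `M ≥ M₀` and `|N| ≤ M ^ L` the number of the integers `N < t ≤ N + M` for which
`((D u₀)(t), (D u₁)(t))` is not normal is at most `ε M`; (2) for every `d` there is `M₀` such that for
`M ≥ M₀` and `|N| ≤ M ^ L` the number of the integers `N < t ≤ N + M` for which the 2-Selmer group of
the curve `E'` is not finite or has at most `2 ^ d` elements is at most `ε M`. -/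
theorem result (n : Fin 3 → ℕ) (m : ℕ) (a : Fin 3 → ℤ) (f : ∀ k : Fin 3, Fin (n k) → ℤ[X])
    (c : ℤ) (g : Fin m → ℤ[X]) (ha : ∀ k, a k ≠ 0) (hc : c ≠ 0)
    (hf : ∀ k i, Irreducible (f k i) ∧ 0 < (f k i).natDegree)
    (hg : ∀ i, Irreducible (g i) ∧ 0 < (g i).natDegree)
    (hff : ∀ k i l j, (⟨k, i⟩ : Σ k : Fin 3, Fin (n k)) ≠ ⟨l, j⟩ → ¬ Associated (f k i) (f l j))
    (hgg : ∀ i j, i ≠ j → ¬ Associated (g i) (g j)) (hfg : ∀ k i j, ¬ Associated (f k i) (g j))
    (hu : u a f 0 - u a f 1 = u a f 2) (h0 : 0 < n 0 + n 1 + n 2)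
    (hn : (∀ k, 2 * n k < n 0 + n 1 + n 2) ∨ Balanced a f c g)
    (δ ε : ℝ) (L : ℕ) (hδ : 0 < δ) (hε : 0 < ε) :
    0 < κ a f c g ∧
    (∃ R M₀ : ℕ, ∀ (N : ℤ) (M : ℕ), M₀ ≤ M → |N| ≤ (M : ℤ) ^ L →
      (((Ioc N (N + (M : ℤ))).filter (fun t => ¬ Normal R (κ a f c g) δ M
        ((D c g * u a f 0).eval t) ((D c g * u a f 1).eval t))).card : ℝ) ≤ ε * M) ∧
    ∀ d : ℕ, ∃ M₀ : ℕ, ∀ (N : ℤ) (M : ℕ), M₀ ≤ M → |N| ≤ (M : ℤ) ^ L →
      (((Ioc N (N + (M : ℤ))).filter (fun t =>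
        ¬ (Finite (Sel (E' ((D c g * u a f 0).eval t) ((D c g * u a f 1).eval t))) ∧
          2 ^ d < Nat.card (Sel (E' ((D c g * u a f 0).eval t)
            ((D c g * u a f 1).eval t)))))).card : ℝ) ≤ ε * M := by
  have hκ := κ_pos a f c g hn h0
  have key : ∀ δ : ℝ, 0 < δ → ∃ R M₀ : ℕ, ∀ (N : ℤ) (M : ℕ), M₀ ≤ M → |N| ≤ (M : ℤ) ^ L →
      (((Ioc N (N + (M : ℤ))).filter (fun t => ¬ Normal R (κ a f c g) δ M
        ((D c g * u a f 0).eval t) ((D c g * u a f 1).eval t))).card : ℝ) ≤ ε * M := by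
    intro δ hδ
    obtain ⟨R, M₀, h⟩ := Pool.Agent.Results.MP_e23604_nt.NormalOrderPencils.result n m a f c g ha hc
      hf hg hff hgg hfg hu hn (δ / 2) ε L (by positivity) hε
    obtain ⟨X1, hX1⟩ := big_ll ((R + 2) / (δ / 2))
    refine ⟨2 * R + 2, M₀ + X1, fun N M hM hN => ?_⟩
    refine le_trans ?_ (h N M (by omega) hN)
    have hl : (R : ℝ) + 2 ≤ δ / 2 * Real.log (Real.log M) := by
      have h3 := hX1 M (by omega)
      rwa [div_le_iff₀ (by positivity), mul_comm] at h3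
    rw [Nat.cast_le]
    refine card_le_card fun t ht => ?_
    obtain ⟨ht1, ht3⟩ := mem_filter.1 ht
    exact mem_filter.2 ⟨ht1, fun hcon => ht3 (normal_of hl hcon)⟩
  refine ⟨hκ, key δ hδ, fun d => ?_⟩
  obtain ⟨R, M₀, h⟩ := key (κ a f c g / 2) (by positivity)
  obtain ⟨X1, hX1⟩ := big_ll ((d + 1) / (κ a f c g / 2))
  refine ⟨M₀ + X1, fun N M hM hN => ?_⟩
  refine le_trans ?_ (h N M (by omega) hN)
  have hl := hX1 M (by omega)
  rw [div_le_iff₀ (by positivity)] at hl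
  rw [Nat.cast_le]
  refine card_le_card fun t ht => ?_
  obtain ⟨ht1, hi⟩ := mem_filter.1 ht
  refine mem_filter.2 ⟨ht1, fun hcon => hi ?_⟩
  obtain ⟨-, -, -, -, -, h6, h7⟩ := hcon
  refine ⟨h6, ?_⟩
  have h8 := (abs_le.1 h7).1
  set A := (D c g * u a f 0).eval t
  set B := (D c g * u a f 1).eval t
  have h9 : (d : ℝ) + 1 ≤ Real.logb 2 (Nat.card (Sel (E' A B))) := by linarith
  have h10 : (0 : ℝ) < Nat.card (Sel (E' A B)) := by
    have : 0 < Nat.card (Sel2 (E' A B)) := Nat.card_pos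
    exact_mod_cast this
  rw [Real.le_logb_iff_rpow_le (by norm_num) h10] at h9
  have h11 : (2 : ℝ) ^ ((d : ℝ) + 1) = ((2 ^ (d + 1) : ℕ) : ℝ) := by
    push_cast
    rw [← Real.rpow_natCast]
    push_cast
    rfl
  rw [h11] at h9
  have h12 : 2 ^ (d + 1) ≤ Nat.card (Sel (E' A B)) := by exact_mod_cast h9
  exact lt_of_lt_of_le (Nat.pow_lt_pow_right (by norm_num) (by omega)) h12

end Pool.Agent.Results.MP_8cb858_nt.IsogenousPencils
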